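import Mathlib

/-!
If the spectrum of an analytic TAF subalgebra of a UHF algebra admits a bounded cocycle, then
every cocycle it admits is bounded.
-/

open Filter Topology

namespace Pool.Agent.Results.MP_3ea43b_an.BoundedCocycles

variable {k : ℕ → ℕ}

/-- The Gelfand spectrum of the canonical masa of the UHF algebra `lim M_{k 0 ⋯ k n}`: the
product space `∏ {0, …, k n - 1}`. -/
abbrev X (k : ℕ → ℕ) : Type := (n : ℕ) → Fin (k n)

/-- The pairs of sequences that agree from the index `N` on. -/
abbrev RN (k : ℕ → ℕ) (N : ℕ) : Type := {p : X k × X k // ∀ n, N ≤ n → p.1 n = p.2 n}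

/-- The AF equivalence relation of the UHF algebra with its canonical masa: two sequences are
equivalent if they agree from some index on. -/
def R (k : ℕ → ℕ) : Type := {p : X k × X k // ∃ N, ∀ n, N ≤ n → p.1 n = p.2 n}

/-- The inclusion of the pairs that agree from `N` on. -/
def inc (k : ℕ → ℕ) (N : ℕ) (p : RN k N) : R k := ⟨p.1, N, p.2⟩

/-- The usual topology of the AF equivalence relation: the inductive limit topology of the
compact open subrelations `RN k N`, each with the topology of the product `X × X`. -/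
instance : TopologicalSpace (R k) := ⨆ N, TopologicalSpace.coinduced (inc k N) inferInstance

/-- Equivalence of points. -/
def Eqv (x y : X k) : Prop := ∃ N, ∀ n, N ≤ n → x n = y n

lemma Eqv.refl (x : X k) : Eqv x x := ⟨0, fun _ _ => rfl⟩
lemma Eqv.symm {x y : X k} (h : Eqv x y) : Eqv y x := by
  obtain ⟨N, h⟩ := h
  exact ⟨N, fun n hn => (h n hn).symm⟩
lemma Eqv.trans {x y z : X k} (h : Eqv x y) (h' : Eqv y z) : Eqv x z := by
  obtain ⟨N, h⟩ := h
  obtain ⟨N', h'⟩ := h'
  exact ⟨max N N', fun n hn => (h n (le_of_max_le_left hn)).trans (h' n (le_of_max_le_right hn))⟩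

/-- The element `(x, y)` of the relation. -/
def pr {x y : X k} (h : Eqv x y) : R k := ⟨(x, y), h⟩

/-- A cocycle: a continuous map `c` on the relation with `c (x, y) + c (y, z) = c (x, z)`. -/
structure IsCocycle (c : R k → ℝ) : Prop where
  continuous : Continuous c
  add : ∀ {x y z : X k} (h : Eqv x y) (h' : Eqv y z),
    c (pr h) + c (pr h') = c (pr (h.trans h'))

/-- The subset `P` of the relation admits the cocycle `c`: `P = {c ≥ 0}`. -/
def Admits (P : Set (R k)) (c : R k → ℝ) : Prop := IsCocycle c ∧ P = {p | 0 ≤ c p}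

/-- The subset `P` is antisymmetric: if `(x, y)` and `(y, x)` are in `P` then `x = y`.  This holds
for the spectrum `P` of every TAF subalgebra `T`, as `T ∩ T^*` is the masa. -/
def Antisymmetric' (P : Set (R k)) : Prop :=
  ∀ {x y : X k} (h : Eqv x y), pr h ∈ P → pr h.symm ∈ P → x = y

/-- A function on the relation is bounded. -/
def IsBddFun (c : R k → ℝ) : Prop := ∃ C : ℝ, ∀ p, |c p| ≤ C

/-- The map replacing the first `N` coordinates by those of `y`. -/
def repl (N : ℕ) (y : X k) (u : X k) : X k := fun n => if n < N then y n else u n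

lemma repl_eqv (N : ℕ) (y u : X k) : Eqv u (repl N y u) :=
  ⟨N, fun n hn => by simp [repl, Nat.not_lt.2 hn]⟩

lemma continuous_repl (N : ℕ) (y : X k) : Continuous (repl N y) := by
  refine continuous_pi fun n => ?_
  by_cases hn : n < N
  · simp only [repl, hn, if_true]; exact continuous_const
  · simp only [repl, hn, if_false]; exact continuous_apply n

/-- `u ↦ c (u, repl N y u)` is continuous. -/
lemma continuous_repl_cocycle {c : R k → ℝ} (hc : IsCocycle c) (N : ℕ) (y : X k) :
    Continuous (fun u : X k => c (pr (repl_eqv N y u))) := by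
  have h1 : Continuous (c ∘ inc k N) :=
    hc.continuous.comp (continuous_iSup_rng (i := N) continuous_coinduced_rng)
  have h2 : Continuous (fun u : X k => (⟨(u, repl N y u), fun n hn => by
      simp [repl, Nat.not_lt.2 hn]⟩ : RN k N)) :=
    Continuous.subtype_mk (continuous_id.prodMk (continuous_repl N y)) _
  exact h1.comp h2

lemma IsCocycle.zero {c : R k → ℝ} (hc : IsCocycle c) (x : X k) (h : Eqv x x) :
    c (pr h) = 0 := by
  have := hc.add h h
  linarith

lemma IsCocycle.neg {c : R k → ℝ} (hc : IsCocycle c) {x y : X k} (h : Eqv x y) :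
    c (pr h.symm) = -c (pr h) := by
  have h1 := hc.add h h.symm
  rw [hc.zero] at h1
  linarith

/-- The main step: the cocycle `c` is bounded above on each orbit. -/
lemma bdd_above (hk : 2 ≤ k 0) {P : Set (R k)} (hP : Antisymmetric' P) {c c' : R k → ℝ}
    (hc : Admits P c) (hc' : Admits P c') (hb : IsBddFun c') (x₀ : X k) :
    ∃ M : ℝ, ∀ {y : X k} (h : Eqv y x₀), c (pr h) ≤ M := by
  by_contra hcon
  push Not at hcon
  choose y hy hyc using fun j : ℕ => hcon (j : ℝ)
  obtain ⟨y₀, φ, hφ, hlim⟩ := CompactSpace.tendsto_subseq y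
  -- a point of the orbit of `y₀` different from `y₀`
  obtain ⟨a, ha⟩ : ∃ a : Fin (k 0), a ≠ y₀ 0 := by
    have : Nontrivial (Fin (k 0)) := Fin.nontrivial_iff_two_le.2 hk
    exact exists_ne _
  let z : X k := Function.update y₀ 0 a
  have hz : z = repl 1 z y₀ := by
    funext n
    by_cases hn : n < 1
    · simp [repl, hn]
    · have : n ≠ 0 := by omega
      simp [repl, hn, z, this]
  have hne : y₀ ≠ repl 1 z y₀ := by
    rw [← hz]
    intro h
    have := congrFun h 0
    simp [z] at this
    exact ha this.symm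
  obtain ⟨C, hC⟩ := hb
  -- the bounded cocycle along the orbit
  let β : {y : X k // Eqv y x₀} → ℝ := fun y => c' (pr y.2)
  have hβb : BddAbove (Set.range β) := ⟨C, by
    rintro _ ⟨y, rfl⟩
    exact (le_abs_self _).trans (hC _)⟩
  have : Nonempty {y : X k // Eqv y x₀} := ⟨⟨x₀, Eqv.refl x₀⟩⟩
  have key : ∀ w : ℕ → {y : X k // Eqv y x₀},
      Tendsto (fun j => c (pr (w j).2)) atTop atTop →
        Tendsto (fun j => β (w j)) atTop (𝓝 (⨆ y, β y)) := by
    intro w hw
    refine tendsto_order.2 ⟨fun r hr => ?_, fun r hr => ?_⟩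
    · obtain ⟨v, hv⟩ := exists_lt_of_lt_ciSup hr
      filter_upwards [hw.eventually_ge_atTop (c (pr v.2))] with j hj
      have h1 : 0 ≤ c (pr ((w j).2.trans v.2.symm)) := by
        rw [← hc.1.add (w j).2 v.2.symm, hc.1.neg v.2]
        linarith
      have h2 : 0 ≤ c' (pr ((w j).2.trans v.2.symm)) := by
        have h3 : pr ((w j).2.trans v.2.symm) ∈ P := by rw [hc.2]; exact h1
        rw [hc'.2] at h3
        exact h3
      rw [← hc'.1.add (w j).2 v.2.symm, hc'.1.neg v.2] at h2
      have h4 : β v ≤ β (w j) := by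
        show c' (pr v.2) ≤ c' (pr (w j).2)
        linarith
      exact hv.trans_le h4
    · filter_upwards with j
      exact (le_ciSup hβb (w j)).trans_lt hr
  let w₁ : ℕ → {y : X k // Eqv y x₀} := fun j => ⟨y (φ j), hy (φ j)⟩
  let w₂ : ℕ → {y : X k // Eqv y x₀} := fun j =>
    ⟨repl 1 z (y (φ j)), (repl_eqv 1 z (y (φ j))).symm.trans (hy (φ j))⟩
  have t1 : Tendsto (fun j => c (pr (w₁ j).2)) atTop atTop := by
    have h1 : Tendsto (fun j : ℕ => ((φ j : ℕ) : ℝ)) atTop atTop :=
      tendsto_natCast_atTop_atTop.comp hφ.tendsto_atTop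
    exact tendsto_atTop_mono (fun j => (hyc (φ j)).le) h1
  have hcc : ∀ {d : R k → ℝ}, IsCocycle d →
      Tendsto (fun j => d (pr (repl_eqv 1 z (y (φ j))))) atTop (𝓝 (d (pr (repl_eqv 1 z y₀)))) :=
    fun {d} hd => ((continuous_repl_cocycle hd 1 z).tendsto y₀).comp hlim
  have hrel : ∀ {d : R k → ℝ}, IsCocycle d → ∀ j,
      d (pr (w₂ j).2) = d (pr (w₁ j).2) - d (pr (repl_eqv 1 z (y (φ j)))) := by
    intro d hd j
    have h1 := hd.add (repl_eqv 1 z (y (φ j))).symm (hy (φ j))
    rw [hd.neg (repl_eqv 1 z (y (φ j)))] at h1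
    have h2 : d (pr (w₂ j).2) = d (pr ((repl_eqv 1 z (y (φ j))).symm.trans (hy (φ j)))) := rfl
    rw [h2, ← h1]
    show _ = d (pr (hy (φ j))) - _
    ring
  have t2 : Tendsto (fun j => c (pr (w₂ j).2)) atTop atTop := by
    simp only [hrel hc.1, sub_eq_add_neg]
    exact tendsto_atTop_add_right_of_le' atTop (-(c (pr (repl_eqv 1 z y₀)) + 1)) t1 (by
      filter_upwards [(hcc hc.1).eventually_le_const (u := c (pr (repl_eqv 1 z y₀)) + 1)
        (by linarith)] with j hj
      linarith)
  have s1 := key w₁ t1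
  have s2 := key w₂ t2
  have s3 : Tendsto (fun j => β (w₁ j) - β (w₂ j)) atTop (𝓝 0) := by
    have := s1.sub s2
    rwa [sub_self] at this
  have s4 : (fun j => β (w₁ j) - β (w₂ j)) = fun j => c' (pr (repl_eqv 1 z (y (φ j)))) := by
    funext j
    show c' (pr (w₁ j).2) - c' (pr (w₂ j).2) = _
    rw [hrel hc'.1]
    ring
  rw [s4] at s3
  have s5 : c' (pr (repl_eqv 1 z y₀)) = 0 := tendsto_nhds_unique (hcc hc'.1) s3
  refine hne (hP (repl_eqv 1 z y₀) ?_ ?_)
  · rw [hc'.2]; exact s5.ge
  · rw [hc'.2]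
    show 0 ≤ c' (pr (repl_eqv 1 z y₀).symm)
    rw [hc'.1.neg (repl_eqv 1 z y₀), s5, neg_zero]

/-- **Bounded cocycles force all cocycles to be bounded.**  Let `k n ≥ 2` for all `n` and let `P`
be an antisymmetric subset of the AF equivalence relation of the UHF algebra with canonical masa
given by `k` (for instance the spectrum of a TAF subalgebra).  If `P` admits a bounded cocycle
`c'`, then every cocycle `c` admitted by `P` is bounded. -/
theorem result (k : ℕ → ℕ) (hk : ∀ n, 2 ≤ k n) (P : Set (R k)) (hP : Antisymmetric' P)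
    (c c' : R k → ℝ) (hc : Admits P c) (hc' : Admits P c') (hb : IsBddFun c') :
    IsBddFun c := by
  -- a point of the space
  let x₀ : X k := fun n => ⟨0, by have := hk n; omega⟩
  obtain ⟨M₁, hM₁⟩ := bdd_above (hk 0) hP hc hc' hb x₀
  -- the opposite relation
  let swap : R k → R k := fun p => pr (Eqv.symm (x := p.1.1) (y := p.1.2) p.2)
  have hswap : ∀ {x y : X k} (h : Eqv x y), swap (pr h) = pr h.symm := fun h => rfl
  let P' : Set (R k) := {p | swap p ∈ P}
  have hPanti : Antisymmetric' P' := fun h h1 h2 => hP h h2 h1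
  have hneg : ∀ {d : R k → ℝ}, Admits P d → Admits P' (fun p => -d p) := by
    intro d hd
    refine ⟨⟨hd.1.continuous.neg, fun h h' => ?_⟩, ?_⟩
    · rw [← hd.1.add h h']; ring
    · ext p
      have h1 : swap p ∈ P ↔ 0 ≤ d (swap p) := by rw [hd.2]; rfl
      have h2 : d (swap p) = -d p := hd.1.neg (x := p.1.1) (y := p.1.2) p.2
      rw [h2] at h1
      exact h1
  obtain ⟨C, hC⟩ := hb
  obtain ⟨M₂, hM₂⟩ := bdd_above (hk 0) hPanti (hneg hc) (hneg hc')
    ⟨C, fun p => by rw [abs_neg]; exact hC p⟩ x₀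
  have hbound : ∀ {u v : X k} (hu : Eqv u x₀) (hv : Eqv v x₀) (h : Eqv u v),
      |c (pr h)| ≤ M₁ + M₂ := by
    intro u v hu hv h
    have h1 := hc.1.add h hv
    have h2 := hM₁ hu
    have h3 := hM₁ hv
    have h4 := hM₂ hu
    have h5 := hM₂ hv
    have h6 : c (pr (h.trans hv)) = c (pr hu) := rfl
    rw [h6] at h1
    rw [abs_le]
    constructor <;> linarith
  refine ⟨M₁ + M₂, fun p => ?_⟩
  obtain ⟨⟨u, v⟩, N, hN⟩ := p
  have hv : v = repl N v u := by
    funext n
    by_cases hn : n < N
    · simp [repl, hn]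
    · simp only [repl, hn, if_false]
      exact (hN n (by omega)).symm
  let U : ℕ → X k := fun j => repl j u x₀
  have hU : Tendsto U atTop (𝓝 u) := by
    rw [tendsto_pi_nhds]
    intro n
    refine tendsto_const_nhds.congr' ?_
    filter_upwards [eventually_gt_atTop n] with j hj
    simp [U, repl, hj]
  have hlim := ((continuous_repl_cocycle hc.1 N v).tendsto u).comp hU
  have hlim' := (continuous_abs.tendsto _).comp hlim
  have h7 : |c (pr (repl_eqv N v u))| ≤ M₁ + M₂ := by
    refine le_of_tendsto' hlim' fun j => ?_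
    have hUj : Eqv (U j) x₀ := (repl_eqv j u x₀).symm
    exact hbound hUj ((repl_eqv N v (U j)).symm.trans hUj) (repl_eqv N v (U j))
  have h8 : (⟨(u, v), N, hN⟩ : R k) = pr (repl_eqv N v u) := by
    refine Subtype.ext ?_
    show (u, v) = (u, repl N v u)
    rw [← hv]
  rw [h8]
  exact h7

end Pool.Agent.Results.MP_3ea43b_an.BoundedCocycles
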